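import Pool.Agent.H87.AX.Targets4
import Pool.Agent.H14.SN.ROT

set_option autoImplicit false

namespace Pool.Agent.H82.AX

open Pool.Agent.H87.SN Pool.Agent.H87.SH Pool.Agent.H87.AX
open MeasureTheory Metric Set Filter Topology
open scoped ContDiff RealInnerProductSpace ENNReal
open Pool.Agent.H14.SN (ext2 rot_c0 rot_c1 rot_c2 rho_rot norm_rot)

theorem one_add_le : (1 : WithTop ℕ∞) + 1 ≤ ((⊤ : ℕ∞) : WithTop ℕ∞) := by
  rw [show (1 : WithTop ℕ∞) + 1 = ((2 : ℕ∞) : WithTop ℕ∞) by rfl]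
  exact WithTop.coe_le_coe.2 le_top

theorem isOpen_offAxis : IsOpen offAxis := by
  have h : Continuous (fun x : E (1 + 2) => rho x) := by
    unfold rho
    fun_prop
  exact isOpen_ball.inter (isOpen_lt continuous_const h)

theorem rot_offAxis (θ : ℝ) (x : E (1 + 2)) (hx : x ∈ offAxis) : rot θ x ∈ offAxis := by
  refine ⟨?_, ?_⟩
  · rw [mem_ball_zero_iff, norm_rot]
    exact mem_ball_zero_iff.1 hx.1
  · rw [rho_rot]
    exact hx.2

/-- the rotation as a continuous linear map -/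
noncomputable def rc (θ : ℝ) : E (1 + 2) →L[ℝ] E (1 + 2) :=
  ContinuousLinearMap.id ℝ (E (1 + 2)) + (Real.cos θ - 1) • Pm 1 + Real.sin θ • Jm 1

theorem rc_apply (θ : ℝ) (x : E (1 + 2)) : rc θ x = rot θ x := rfl

theorem rot_b0 (θ : ℝ) : rot θ (bv (0 : Fin (1 + 2))) =
    Real.cos θ • bv (0 : Fin (1 + 2)) + Real.sin θ • bv (1 : Fin (1 + 2)) := by
  refine ext2 ?_ ?_ fun i => ?_
  · rw [rot_c0]
    simp [bv]
  · rw [rot_c1]
    simp [bv]
  · rw [rot_c2]
    fin_cases i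
    simp [bv]

theorem rot_b1 (θ : ℝ) : rot θ (bv (1 : Fin (1 + 2))) =
    (-Real.sin θ) • bv (0 : Fin (1 + 2)) + Real.cos θ • bv (1 : Fin (1 + 2)) := by
  refine ext2 ?_ ?_ fun i => ?_
  · rw [rot_c0]
    simp [bv]
  · rw [rot_c1]
    simp [bv]
  · rw [rot_c2]
    fin_cases i
    simp [bv]

theorem rot_b2 (θ : ℝ) : rot θ (bv (2 : Fin (1 + 2))) = bv (2 : Fin (1 + 2)) := by
  refine ext2 ?_ ?_ fun i => ?_
  · rw [rot_c0]
    simp [bv]
  · rw [rot_c1]
    simp [bv]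
  · rw [rot_c2]

theorem norm_rot2 {m : ℕ} (a b : E m) (θ : ℝ) :
    ‖Real.cos θ • a + Real.sin θ • b‖ ^ 2 + ‖(-Real.sin θ) • a + Real.cos θ • b‖ ^ 2 =
      ‖a‖ ^ 2 + ‖b‖ ^ 2 := by
  rw [norm_add_sq_real, norm_add_sq_real, norm_smul, norm_smul, norm_smul, norm_smul,
    real_inner_smul_left, real_inner_smul_right, real_inner_smul_left, real_inner_smul_right,
    mul_pow, mul_pow, mul_pow, mul_pow, Real.norm_eq_abs, Real.norm_eq_abs, Real.norm_eq_abs,
    sq_abs, sq_abs, sq_abs]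
  have h := Real.sin_sq_add_cos_sq θ
  linear_combination (‖a‖ ^ 2 + ‖b‖ ^ 2) * h

theorem inv_one {m : ℕ} (M : E (1 + 2) →L[ℝ] E m) (θ : ℝ) :
    ∑ i : Fin (1 + 2), ‖M (rot θ (bv i))‖ ^ 2 = ∑ i : Fin (1 + 2), ‖M (bv i)‖ ^ 2 := by
  have e : ∀ f : Fin (1 + 2) → ℝ, ∑ i, f i = f 0 + f 1 + f 2 := fun f => Fin.sum_univ_three f
  rw [e, e, rot_b0, rot_b1, rot_b2, map_add, map_add, map_smul, map_smul, map_smul, map_smul]
  rw [norm_rot2]

theorem inv_two {m : ℕ} (B : E (1 + 2) →L[ℝ] E (1 + 2) →L[ℝ] E m) (θ : ℝ) :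
    ∑ i : Fin (1 + 2), ∑ j : Fin (1 + 2), ‖B (rot θ (bv i)) (rot θ (bv j))‖ ^ 2 =
      ∑ i : Fin (1 + 2), ∑ j : Fin (1 + 2), ‖B (bv i) (bv j)‖ ^ 2 := by
  have h1 : ∑ i : Fin (1 + 2), ∑ j : Fin (1 + 2), ‖B (rot θ (bv i)) (rot θ (bv j))‖ ^ 2 =
      ∑ i : Fin (1 + 2), ∑ j : Fin (1 + 2), ‖B (rot θ (bv i)) (bv j)‖ ^ 2 :=
    Finset.sum_congr rfl fun i _ => inv_one (B (rot θ (bv i))) θ
  rw [h1, Finset.sum_comm, Finset.sum_comm (f := fun i j => ‖B (bv i) (bv j)‖ ^ 2)]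
  refine Finset.sum_congr rfl fun j _ => ?_
  exact inv_one (B.flip (bv j)) θ

theorem pf_AXF (hROT : T_ROT) : T_AXF := by
  intro m P u hP hu hax
  have hRF := hROT 1
  have hPd : ∀ v : E m, HasDerivAt (fun t => P t v) (deriv P 0 v) 0 := by
    intro v
    have h := (hP.diff 0).hasDerivAt.clm_apply (hasDerivAt_const (0 : ℝ) v)
    simpa using h
  have hat : ∀ x ∈ offAxis, ContDiffAt ℝ ∞ u x := fun x hx =>
    hu.contDiffAt (isOpen_offAxis.mem_nhds hx)
  have hd : ∀ x ∈ offAxis, DifferentiableAt ℝ u x := fun x hx =>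
    (hat x hx).differentiableAt (by simp)
  have hd2 : ∀ x ∈ offAxis, DifferentiableAt ℝ (fderiv ℝ u) x := fun x hx =>
    ((hat x hx).fderiv_right (m := 1) one_add_le).differentiableAt (by simp)
  have h2 : ∀ x ∈ offAxis, fderiv ℝ u x (Jm 1 x) = deriv P 0 (u x) := by
    intro x hx
    have e0 : rot 0 x = x := hRF.zero x
    have h1 : HasDerivAt (fun s : ℝ => rot s x) (Jm 1 x) 0 := by
      have := hRF.hasDeriv x 0
      rwa [e0] at this
    have h3 : HasFDerivAt u (fderiv ℝ u x) (rot 0 x) := by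
      rw [e0]
      exact (hd x hx).hasFDerivAt
    have h4 := h3.comp_hasDerivAt (0 : ℝ) h1
    have h5 : (u ∘ fun s : ℝ => rot s x) = fun s => P s (u x) := by
      funext s
      exact hax s x hx
    rw [h5] at h4
    exact h4.unique (hPd (u x))
  refine ⟨?_, h2, ?_, ?_⟩
  · intro v w
    have hin : ∀ t, ⟪P t v, P t w⟫ = ⟪v, w⟫ := by
      intro t
      let L : E m →ₗᵢ[ℝ] E m := ⟨(P t).toLinearMap, fun z => hP.iso t z⟩
      exact L.inner_map_map v w
    have h := (hPd v).inner ℝ (hPd w)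
    have h1 : (fun t => ⟪P t v, P t w⟫) = fun _ => ⟪v, w⟫ := funext hin
    rw [h1, hP.zero, hP.zero] at h
    have h3 := h.unique (hasDerivAt_const (0 : ℝ) ⟪v, w⟫)
    linarith
  · intro x hx v
    have h3 : HasFDerivAt (fun y => fderiv ℝ u y (Jm 1 y))
        ((fderiv ℝ u x).comp (Jm 1) + (fderiv ℝ (fderiv ℝ u) x).flip (Jm 1 x)) x :=
      (hd2 x hx).hasFDerivAt.clm_apply (Jm 1).hasFDerivAt
    have h4 : HasFDerivAt (fun y => deriv P 0 (u y)) ((deriv P 0).comp (fderiv ℝ u x)) x :=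
      (deriv P 0).hasFDerivAt.comp x (hd x hx).hasFDerivAt
    have h5 : (fun y => fderiv ℝ u y (Jm 1 y)) =ᶠ[𝓝 x] fun y => deriv P 0 (u y) := by
      filter_upwards [isOpen_offAxis.mem_nhds hx] with y hy
      exact h2 y hy
    have h6 := (h4.congr_of_eventuallyEq h5).unique h3
    have h7 := congrArg (fun L : E (1 + 2) →L[ℝ] E m => L v) h6
    simp only [ContinuousLinearMap.comp_apply, add_apply,
      ContinuousLinearMap.flip_apply] at h7
    rw [h7, add_comm]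
  · intro θ x hx
    have hR : ∀ y, rc θ y = rot θ y := fun y => rfl
    have hA : ∀ y ∈ offAxis, ∀ w, fderiv ℝ u (rot θ y) (rot θ w) = P θ (fderiv ℝ u y w) := by
      intro y hy w
      have h3 : HasFDerivAt (fun z => u (rc θ z)) ((fderiv ℝ u (rot θ y)).comp (rc θ)) y :=
        ((hd _ (rot_offAxis θ y hy)).hasFDerivAt).comp y (rc θ).hasFDerivAt
      have h4 : HasFDerivAt (fun z => P θ (u z)) ((P θ).comp (fderiv ℝ u y)) y :=
        (P θ).hasFDerivAt.comp y (hd y hy).hasFDerivAt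
      have h5 : (fun z => u (rc θ z)) =ᶠ[𝓝 y] fun z => P θ (u z) := by
        filter_upwards [isOpen_offAxis.mem_nhds hy] with z hz
        exact hax θ z hz
      have h6 := (h4.congr_of_eventuallyEq h5).unique h3
      exact (congrArg (fun L : E (1 + 2) →L[ℝ] E m => L w) h6).symm
    have hB : ∀ v w, fderiv ℝ (fderiv ℝ u) (rot θ x) (rot θ v) (rot θ w) =
        P θ (fderiv ℝ (fderiv ℝ u) x v w) := by
      intro v w
      have h3 : HasFDerivAt (fun z => fderiv ℝ u (rc θ z))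
          ((fderiv ℝ (fderiv ℝ u) (rot θ x)).comp (rc θ)) x :=
        ((hd2 _ (rot_offAxis θ x hx)).hasFDerivAt).comp x (rc θ).hasFDerivAt
      have h4 := h3.clm_apply (hasFDerivAt_const (rot θ w) x)
      have h5 := (P θ).hasFDerivAt.comp x
        ((hd2 x hx).hasFDerivAt.clm_apply (hasFDerivAt_const w x))
      have h6 : (fun z => fderiv ℝ u (rc θ z) (rot θ w)) =ᶠ[𝓝 x]
          (⇑(P θ) ∘ fun z => fderiv ℝ u z w) := by
        filter_upwards [isOpen_offAxis.mem_nhds hx] with z hz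
        exact hA z hz w
      have h7 := (h5.congr_of_eventuallyEq h6).unique h4
      have h8 := congrArg (fun L : E (1 + 2) →L[ℝ] E m => L v) h7
      simp at h8
      exact h8.symm
    constructor
    · unfold en nsq
      rw [← inv_one (fderiv ℝ u (rot θ x)) θ]
      refine Finset.sum_congr rfl fun i _ => ?_
      rw [hA x hx, hP.iso]
    · unfold hsq
      rw [← inv_two (fderiv ℝ (fderiv ℝ u) (rot θ x)) θ]
      refine Finset.sum_congr rfl fun i _ => Finset.sum_congr rfl fun j _ => ?_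
      rw [hB, hP.iso]

end Pool.Agent.H82.AX
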